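import Mathlib
import Pool.Agent.H75.Sl2Eq

/-! A Leonard triple of diameter two that does not come from the equitable basis of `sl2`. -/

set_option autoImplicit false

namespace Pool.Agent.Results.MP_44ae8d_al.SpinOne

open Matrix

section defs
variable {K : Type} [Field K] {n : ℕ}

/-- Irreducible tridiagonal matrices. -/
def IrrTri (M : Matrix (Fin n) (Fin n) K) : Prop :=
  ∀ i j : Fin n, ((i : ℕ) + 1 < j ∨ (j : ℕ) + 1 < i → M i j = 0) ∧
    ((i : ℕ) + 1 = j ∨ (j : ℕ) + 1 = i → M i j ≠ 0)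

/-- The matrix of the map `M` in the basis formed by the columns of `P`. -/
def inB (P : (Matrix (Fin n) (Fin n) K)ˣ) (M : Matrix (Fin n) (Fin n) K) :
    Matrix (Fin n) (Fin n) K := P⁻¹.val * M * P.val

def LeonardPair (A B : Matrix (Fin n) (Fin n) K) : Prop :=
  (∃ P, (inB P A).IsDiag ∧ IrrTri (inB P B)) ∧ ∃ P, (inB P B).IsDiag ∧ IrrTri (inB P A)

def LeonardTriple (A B C : Matrix (Fin n) (Fin n) K) : Prop :=
  (∃ P, (inB P A).IsDiag ∧ IrrTri (inB P B) ∧ IrrTri (inB P C)) ∧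
    (∃ P, (inB P B).IsDiag ∧ IrrTri (inB P A) ∧ IrrTri (inB P C)) ∧
      ∃ P, (inB P C).IsDiag ∧ IrrTri (inB P A) ∧ IrrTri (inB P B)

/-- The condition `beta = 2` on the eigenvalue sequence of `A`. -/
def BetaTwo (A B : Matrix (Fin n) (Fin n) K) : Prop :=
  ∀ P, (inB P A).IsDiag → IrrTri (inB P B) → ∀ i j k l : Fin n, (j : ℕ) = i + 1 →
    (k : ℕ) = i + 2 → (l : ℕ) = i + 3 →
      inB P A i i - inB P A l l = 3 * (inB P A j j - inB P A k k)

/-- `x, y, z` make `K ^ n` an irreducible `sl2`-module in the equitable basis. -/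
def IrrMod (x y z : Matrix (Fin n) (Fin n) K) : Prop :=
  x * y - y * x = 2 • x + 2 • y ∧ y * z - z * y = 2 • y + 2 • z ∧ z * x - x * z = 2 • z + 2 • x ∧
    ∀ W : Submodule K (Fin n → K), (∀ w ∈ W, x *ᵥ w ∈ W ∧ y *ᵥ w ∈ W ∧ z *ᵥ w ∈ W) → W = ⊥ ∨ W = ⊤

/-- `M` is a linear combination of `I, s, t, st`. -/
def InSpan (M s t : Matrix (Fin n) (Fin n) K) : Prop :=
  ∃ a b c e : K, M = a • (1 : Matrix (Fin n) (Fin n) K) + b • s + c • t + e • (s * t)

end defs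

abbrev Mt (K : Type) := Matrix (Fin 3) (Fin 3) K
def A : Mt ℚ := !![0, 0, 0; 0, 0, 1; 0, 1, 0]
def B : Mt ℚ := !![0, 0, 1; 0, 0, 0; 1, 0, 0]
def C : Mt ℚ := !![0, 1, 0; 1, 0, 0; 0, 0, 0]
def P1 : (Mt ℚ)ˣ := ⟨!![0, 1, 0; 1, 0, 1; 1, 0, -1], !![0, 1/2, 1/2; 1, 0, 0; 0, 1/2, -1/2],
  by decide +kernel, by decide +kernel⟩
def P2 : (Mt ℚ)ˣ := ⟨!![1, 0, 1; 0, 1, 0; 1, 0, -1], !![1/2, 0, 1/2; 0, 1, 0; 1/2, 0, -1/2],
  by decide +kernel, by decide +kernel⟩
def P3 : (Mt ℚ)ˣ := ⟨!![1, 0, 1; 1, 0, -1; 0, 1, 0], !![1/2, 1/2, 0; 0, 0, 1; 1/2, -1/2, 0],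
  by decide +kernel, by decide +kernel⟩

instance (M : Mt ℚ) : Decidable (IrrTri M) := by unfold IrrTri; infer_instance
instance (M : Mt ℚ) : Decidable M.IsDiag := by unfold IsDiag Pairwise; infer_instance

variable {K : Type} [Field K] [CharZero K]

def f : Mt ℚ →+* Mt K := (algebraMap ℚ K).mapMatrix

theorem tr (P : (Mt ℚ)ˣ) (S T U : Mt ℚ) (h : (inB P S).IsDiag ∧ IrrTri (inB P T) ∧ IrrTri (inB P U)) :
    ∃ Q : (Mt K)ˣ, (inB Q (f S)).IsDiag ∧ IrrTri (inB Q (f T)) ∧ IrrTri (inB Q (f U)) := by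
  have e : ∀ M, inB (Units.map (f (K := K)).toMonoidHom P) (f M) = f (inB P M) := fun M => by
    simp [inB]
  have g : ∀ M : Mt ℚ, IrrTri M → IrrTri (f (K := K) M) := fun M hM i j => by
    simpa [f] using hM i j
  refine ⟨Units.map (f (K := K)).toMonoidHom P, ?_, e T ▸ g _ h.2.1, e U ▸ g _ h.2.2⟩
  rw [e]
  exact h.1.map (map_zero _)

theorem nf (x y z : Mt K) (h : IrrMod x y z) : ∃ F : Mt K →ₐ[K] Mt K, (∀ M, (F M).trace = M.trace) ∧
    F x = !![-2, 0, 0; 1, 0, 0; 0, 1, 2] ∧ F y = !![2, 0, 0; 0, 0, 0; 0, 0, -2] ∧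
      F z = !![-2, -8, 0; 0, 0, -8; 0, 0, 2] := by
  obtain ⟨F, h0, h1, h2, h3⟩ := H75.Sl2Eq.normal_form (d := 2) x y z h.1 h.2.1 h.2.2.1 h.2.2.2
  simp only [map_add, Matrix.add_apply] at h2 h3
  have h4 := fun i j => eq_sub_of_add_eq (h2 i j)
  have h5 := fun i j => eq_sub_of_add_eq' (h3 i j)
  refine ⟨F, h0, ?_, ?_, ?_⟩ <;> ext i j <;> simp only [h1, h4, h5] <;> fin_cases i <;>
    fin_cases j <;> norm_num

theorem pair (x y z S T : Mt K) (h : IrrMod x y z) (hS : InSpan S x y) (hT : InSpan T y z)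
    (e1 : S * T * S = 0) (e2 : T * S * T = 0) (e3 : S * S * S = S) (e4 : T * T * T = T)
    (e5 : S * S + T * T + (S * T + T * S) * (S * T + T * S) = 2) (e6 : S.trace = 0)
    (e7 : T.trace = 0) : (∃ b c : K, S = b • x + c • y) ∧ ∃ b c : K, T = b • y + c • z := by
  obtain ⟨F, h0, hx, hy, hz⟩ := nf x y z h
  obtain ⟨a, b, c, e, rfl⟩ := hS
  obtain ⟨a', b', c', e', rfl⟩ := hT
  rw [← h0] at e6 e7
  replace e1 := congrArg F e1
  replace e2 := congrArg F e2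
  replace e3 := congrArg F e3
  replace e4 := congrArg F e4
  replace e5 := congrArg F e5
  simp only [map_mul, map_add F (_ * _ + _ * _), map_add F (_ * _), map_zero, map_ofNat]
    at e1 e2 e3 e4 e5
  obtain ⟨s0, s2, p, r, hs, k1⟩ : ∃ s0 s2 p r : K, F (a • 1 + b • x + c • y + e • (x * y)) =
      !![s0, 0, 0; p, a, 0; 0, r, s2] ∧ s0 + s2 - 2 * a = -8 * e := by
    refine ⟨a - 2 * b + 2 * c - 4 * e, a + 2 * b - 2 * c - 4 * e, b + 2 * e, b, ?_, by ring⟩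
    simp only [map_add, map_smul, map_mul, map_one, hx, hy]
    ext i j; fin_cases i <;> fin_cases j <;> simp <;> ring
  obtain ⟨t0, t2, s, w, ht, k3⟩ : ∃ t0 t2 s w : K, F (a' • 1 + b' • y + c' • z + e' • (y * z)) =
      !![t0, s, 0; 0, a', w; 0, 0, t2] ∧ t0 + t2 - 2 * a' = -8 * e' := by
    refine ⟨a' + 2 * b' - 2 * c' - 4 * e', a' - 2 * b' + 2 * c' - 4 * e', -8 * c' - 16 * e', -8 * c',
      ?_, by ring⟩
    simp only [map_add, map_smul, map_mul, map_one, hz, hy]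
    ext i j; fin_cases i <;> fin_cases j <;> simp <;> ring
  rw [hs] at e1 e2 e3 e5 e6
  rw [ht] at e1 e2 e4 e5 e7
  have q := fun (M N : Mt K) (e : M = N) (i j : Fin 3) => congrFun (congrFun e i) j
  have a1 := q _ _ e1 0 0
  have a2 := q _ _ e1 2 2
  have a3 := q _ _ e1 2 0
  have b1 := q _ _ e2 0 0
  have b2 := q _ _ e2 2 2
  have b3 := q _ _ e2 0 2
  have c1 := q _ _ e3 0 0
  have c2 := q _ _ e3 2 2
  have d1 := q _ _ e4 0 0
  have d2 := q _ _ e4 2 2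
  have g1 := q _ _ e5 0 0
  have g2 := q _ _ e5 2 2
  simp [-mul_eq_zero, -mul_eq_mul_left_iff, -mul_eq_mul_right_iff, ofNat_apply, trace_fin_three]
    at a1 a2 a3 b1 b2 b3 c1 c2 d1 d2 g1 g2 e6 e7
  have u1 : s * p ≠ 0 := fun h => by grind
  have u2 : r * w ≠ 0 := fun h => by grind
  have v1 : a = 0 := by grind
  have v2 : a' = 0 := by grind
  have v3 : e = 0 := by grind
  have v4 : e' = 0 := by grind
  exact ⟨⟨b, c, by simp [v1, v3]⟩, b', c', by simp [v2, v4]⟩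

theorem result (K : Type) [Field K] [CharZero K] : ∃ A B C : Matrix (Fin 3) (Fin 3) K,
    LeonardPair A B ∧ BetaTwo A B ∧ LeonardTriple A B C ∧
      ¬∃ x y z, IrrMod x y z ∧ InSpan A x y ∧ InSpan B y z ∧ InSpan C z x := by
  have T : LeonardTriple (f (K := K) A) (f B) (f C) :=
    ⟨tr P1 _ _ _ (by decide +kernel), tr P2 _ _ _ (by decide +kernel),
      tr P3 _ _ _ (by decide +kernel)⟩
  refine ⟨f A, f B, f C, ⟨T.1.imp fun _ h => ⟨h.1, h.2.1⟩, T.2.1.imp fun _ h => ⟨h.1, h.2.1⟩⟩,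
    fun P _ _ i j k l _ _ h => by omega, T, ?_⟩
  rintro ⟨x, y, z, h, hA, hB, hC⟩
  have tf : ∀ M : Mt ℚ, (f (K := K) M).trace = algebraMap ℚ K M.trace := fun M => by
    simp [f, trace_fin_three]
  have key : ∀ (x y z : Mt K) (S T : Mt ℚ), IrrMod x y z → InSpan (f S) x y → InSpan (f T) y z →
      (S * T * S = 0 ∧ T * S * T = 0 ∧ S * S * S = S ∧ T * T * T = T ∧
        S * S + T * T + (S * T + T * S) * (S * T + T * S) = 2 ∧ S.trace = 0 ∧ T.trace = 0) →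
      (∃ b c : K, f S = b • x + c • y) ∧ ∃ b c : K, f T = b • y + c • z :=
    fun x y z S T h hS hT ⟨e1, e2, e3, e4, e5, e6, e7⟩ => pair x y z _ _ h hS hT
      (by simpa using congrArg (f (K := K)) e1) (by simpa using congrArg (f (K := K)) e2)
      (by simpa using congrArg (f (K := K)) e3) (by simpa using congrArg (f (K := K)) e4)
      (by simpa only [map_add, map_mul, map_ofNat] using congrArg (f (K := K)) e5)
      (by simp [tf, e6]) (by simp [tf, e7])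
  obtain ⟨⟨b, c, e1⟩, b', c', e2⟩ := key x y z A B h hA hB (by decide +kernel)
  obtain ⟨-, b'', c'', e3⟩ := key y z x B C
    ⟨h.2.1, h.2.2.1, h.1, fun W hW => h.2.2.2 W fun w hw => by have := hW w hw; tauto⟩ hB hC
    (by decide +kernel)
  obtain ⟨F, h0, hx, hy, hz⟩ := nf x y z h
  have e : (f (K := K) (C * (A * B + B * A))).trace = 2 := by
    rw [tf, show (C * (A * B + B * A)).trace = 2 by decide +kernel, map_ofNat]
  rw [← h0] at e
  simp only [map_mul, map_add, e1, e2, e3, map_smul, hx, hy, hz] at e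
  simp [trace_fin_three] at e
  grind

end Pool.Agent.Results.MP_44ae8d_al.SpinOne
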